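import Pool.Agent.Q152.EarE

/-! There is a complex with a convex ear decomposition that is not shellable: the boundary of a
simplicial 4-polytope with 23 vertices and 105 facets, together with `2^14` further copies of a
90-facet subcomplex `B` (a 3-ball with a knotted two-edge spanning arc) glued along `∂B`. -/

namespace Pool.Agent.Results.MP_cf6e1a_co.NotShellable

/-- A `3`-dimensional complex with a convex ear decomposition that is not shellable. -/
theorem result : ∃ Δ : Finset (Finset (ℕ × ℕ)),
    Q152Ear.HasConvexEarDecomposition 4 Δ ∧ ¬ Q152Ear.Shellable Δ :=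
  ⟨Q152Ear.Dl (2 ^ 14), Q152Ear.ced _, Q152Ear.not_shellable le_rfl⟩

end Pool.Agent.Results.MP_cf6e1a_co.NotShellable
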